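import Pool.Agent.Lib.MP_e1f7e2_al.SU.H36.T3

set_option autoImplicit false

/-!
Project SU3 (MP_e1f7e2_al), module KFACT: facts on K-vertices.
-/

open MvPolynomial

namespace Pool.Agent.Lib.MP_e1f7e2_al.SU.H36

section

variable {K : Type*} [Field K] {w : Fin 3 → ℝ}

/-- the polynomial `a Y²` -/
noncomputable def sqp (a : K) : MvPolynomial (Fin 2) K := C a * X 1 ^ 2

lemma ev_sqp (a : K) (f g : MvPolynomial (Fin 3) K) : ev (sqp a) f g = C a * g ^ 2 := by
  unfold sqp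
  rw [ev_mul, ev_pow, ev_C, ev_X1]

lemma pd0_sqp (a : K) : pderiv 0 (sqp a) = (0 : MvPolynomial (Fin 2) K) := by
  unfold sqp
  simp

lemma pd1_sqp (a : K) : pderiv 1 (sqp a) = (C (2 * a) * X 1 : MvPolynomial (Fin 2) K) := by
  unfold sqp
  simp only [Derivation.leibniz, Derivation.leibniz_pow, pderiv_X_self, pderiv_C, smul_eq_mul,
    map_mul]
  have h2 : (C 2 : MvPolynomial (Fin 2) K) = 2 := map_ofNat C 2
  simp only [h2, mul_zero, add_zero]
  simp
  ring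

lemma elem_sq {f1 f2 f3 : MvPolynomial (Fin 3) K} (h : Fr f1 f2 f3) (a : K) :
    Fr (f1 + C a * f3 ^ 2) f2 f3 := by
  have := h.elem1 (sqp a)
  rwa [ev_sqp] at this

lemma cr_sq_right (f1 f2 f3 : MvPolynomial (Fin 3) K) (a : K) :
    cr (D (f1 + C a * f3 ^ 2)) (D f3) = cr (D f1) (D f3) := by
  have := cr_elem0 f1 f2 f3 (sqp a)
  rw [pd0_sqp, ev_zero, zero_smul, add_zero, ev_sqp] at this
  exact this

lemma cr_sq_left (f1 f2 f3 : MvPolynomial (Fin 3) K) (a : K) :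
    cr (D (f1 + C a * f3 ^ 2)) (D f2) =
      cr (D f1) (D f2) + (C (2 * a) * f3) • cr (D f3) (D f2) := by
  have := cr_elem1 f1 f2 f3 (sqp a)
  rw [pd1_sqp, ev_mul, ev_C, ev_X1, ev_sqp] at this
  exact this

theorem kfact [CharZero K] (_hw : Gen w) (F : Facts K w) (S : SuAll K w) :
    KFactStatement K w := by
  intro f1 f2 f3 a P γ hk
  have hγ := hk.hγ
  have hfr := hk.fr
  have hfr' : Fr (f1 + C a * f3 ^ 2) f2 f3 := elem_sq hfr a
  set g1 := f1 + C a * f3 ^ 2 with hg1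
  set ε := br w g1 f2 with hε
  have e1 : dg w g1 = 3 * γ := hk.h1
  have e2 : dg w f2 = 2 * γ := hk.h2
  have e3 : dg w f3 ≤ 3 / 2 * γ := hk.h3
  have e4 : γ + ε ≤ dg w f3 := hk.h4
  have e5 : dg w (f3 + ev P g1 f2) < γ + ε := hk.h5
  have hεpos : 0 < ε := F.b.bpos _ _ _ hfr'
  have hgood' : Good w g1 f2 f3 := ⟨hfr', by rw [e1, e2]; linarith, by rw [e2]; linarith⟩
  have hnc : ¬ ∃ c : K, P = C c := by
    rintro ⟨c, rfl⟩
    rw [ev_C] at e5
    have h1 : f3 = (f3 + C c) - C c := by ring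
    have h2 : dg w f3 ≤ max (dg w (f3 + C c)) (dg w (C c : MvPolynomial (Fin 3) K)) := by
      conv_lhs => rw [h1]
      exact F.d.sub_le _ _
    rw [F.d.const] at h2
    rcases le_max_iff.mp h2 with h3 | h3 <;> linarith
  have hT := t3_core F S g1 f2 f3 P hgood' (by linarith)
  rcases hT with hT | ⟨n, hn, hT⟩ | ⟨γ', T, hvd⟩
  · exact absurd hT hnc
  · exfalso
    rw [e1, e2] at hT
    have h1 : (3 : ℝ) * γ = (2 * n) * γ := by linarith
    have h2 : (3 : ℝ) = 2 * n := mul_right_cancel₀ hγ.ne' h1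
    have h3 : 3 = 2 * n := by exact_mod_cast h2
    omega
  have hγγ : γ' = γ := by have := T.d1; rw [e1] at this; linarith
  subst hγγ
  have hpx := T.px
  have hpxne : ev (pderiv 0 P) g1 f2 ≠ 0 := by
    intro h
    rw [h, F.d.zero] at hpx
    linarith
  -- `[f2,f3] = 3γ + ε`
  have hcr := cr_elem0 f3 g1 f2 P
  have hv1 : dv w (ev (pderiv 0 P) g1 f2 • cr (D g1) (D f2)) = 3 * γ' + ε := by
    rw [F.v.smul _ _ hpxne (F.b.cne _ _ _ hfr'), hpx]
    rfl
  have hv2 : dv w (cr (D (f3 + ev P g1 f2)) (D f2)) < 3 * γ' + ε := by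
    have := F.v.cr_le (D (f3 + ev P g1 f2)) (D f2)
    rw [F.v.D', F.v.D'] at this
    linarith
  have hb1 : br w f2 f3 = 3 * γ' + ε := by
    rw [F.b.comm]
    have h1 : cr (D f3) (D f2) = cr (D (f3 + ev P g1 f2)) (D f2) -
        ev (pderiv 0 P) g1 f2 • cr (D g1) (D f2) := by rw [hcr]; abel
    have h2 := F.v.sub_right _ _ (hv2.trans_eq hv1.symm)
    unfold br
    rw [h1, h2, hv1]
  have hb2' : br w g1 f3 = 4 * γ' + ε := by rw [T.b2, hb1]; ring
  have hb2 : br w f1 f3 = 4 * γ' + ε := by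
    rw [← hb2']
    unfold br
    rw [hg1, cr_sq_right f1 f2 f3 a]
  have p3 : 0 < dg w f3 := F.b.dpos _ _ _ hfr.swap13
  have h2a : (2 * a : K) ≠ 0 := mul_ne_zero two_ne_zero hk.ha
  have hf3ne : f3 ≠ 0 := by rintro rfl; rw [F.d.zero] at p3; exact lt_irrefl _ p3
  have hne2 : (C (2 * a) * f3 : MvPolynomial (Fin 3) K) ≠ 0 := by
    refine mul_ne_zero ?_ hf3ne
    intro h
    exact h2a (C_injective (Fin 3) K (by rw [h, map_zero]))
  have hv3 : dv w ((C (2 * a) * f3 : MvPolynomial (Fin 3) K) • cr (D f3) (D f2)) =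
      dg w f3 + 3 * γ' + ε := by
    rw [F.v.smul _ _ hne2 (F.b.cne _ _ _ hfr.rot.swap12), F.d.Cmul _ _ h2a]
    have : dv w (cr (D f3) (D f2)) = 3 * γ' + ε := by
      have h := F.b.comm f3 f2
      rw [hb1] at h
      exact h
    rw [this]; ring
  have hb3 : br w f1 f2 = dg w f3 + 3 * γ' + ε := by
    have h1 : cr (D f1) (D f2) = cr (D g1) (D f2) -
        (C (2 * a) * f3 : MvPolynomial (Fin 3) K) • cr (D f3) (D f2) := by
      rw [hg1, cr_sq_left]; abel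
    have h2 : dv w (cr (D g1) (D f2)) <
        dv w ((C (2 * a) * f3 : MvPolynomial (Fin 3) K) • cr (D f3) (D f2)) := by
      rw [hv3]
      change ε < _
      linarith
    unfold br
    rw [h1, F.v.sub_right _ _ h2, hv3]
  have hC : dg w (C a * f3 ^ 2) = 2 * dg w f3 := by
    rw [F.d.Cmul _ _ hk.ha, F.d.pow]; norm_num
  have hf1 : f1 = g1 - C a * f3 ^ 2 := by rw [hg1]; ring
  have hd1 : 5 / 2 * γ' + ε ≤ dg w f1 := by
    have := F.b.le f1 f3
    linarith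
  have hd1' : dg w f1 ≤ 3 * γ' := by
    rw [hf1]
    refine le_trans (F.d.sub_le _ _) (max_le e1.le ?_)
    rw [hC]; linarith
  have hd1'' : 2 * dg w f3 < 3 * γ' → dg w f1 = 3 * γ' := by
    intro h
    rw [hf1, F.d.sub_left _ _ (by rw [hC, e1]; exact h), e1]
  refine ⟨rfl, hεpos, hb1, hb2, hb3, hd1, hd1', hd1'', ⟨hfr, by rw [e2]; linarith,
    by rw [e2]; linarith⟩, hgood', ?_, ?_⟩
  · rcases lt_or_ge (2 * dg w f3) (3 * γ') with h | h
    · rw [hd1'' h, ← hg1, e1]; linarith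
    · rw [← hg1, e1]; linarith
  · intro m hm
    have h1 := F.p.ge (dg w g1) (dg w f2) P m hm
    rw [hvd, e1, e2] at h1
    have h2 : ((3 * m 0 + 2 * m 1 : ℕ) : ℝ) * γ' ≤ (6 : ℕ) * γ' := by
      push_cast
      linarith
    exact_mod_cast le_of_mul_le_mul_right h2 hγ

end

end Pool.Agent.Lib.MP_e1f7e2_al.SU.H36
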