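import Pool.Agent.Lib.MP_e1f7e2_al.SU.H36.Kfact

set_option autoImplicit false

/-!
Project SU3 (MP_e1f7e2_al), module KNB: the main claim for K-vertices.
-/

open MvPolynomial

namespace Pool.Agent.Lib.MP_e1f7e2_al.SU.H36

section

variable {K : Type*} [Field K] {w : Fin 3 → ℝ}

lemma sp3_type2 (f1 f2 f3 : MvPolynomial (Fin 3) K) (c r1 r0 : K) :
    sp3 (f1 + C c * f2) (f2 + (C r1 * f3 + C r0)) f3 = sp3 f1 f2 f3 := by
  apply le_antisymm
  · refine sp3_le (mem_sp3.mpr ⟨1, c, 0, 0, ?_⟩) (mem_sp3.mpr ⟨0, 1, r1, r0, ?_⟩)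
      (mem_sp3.mpr ⟨0, 0, 1, 0, ?_⟩)
    · simp
    · simp; ring
    · simp
  · refine sp3_le (mem_sp3.mpr ⟨1, -c, c * r1, c * r0, ?_⟩) (mem_sp3.mpr ⟨0, 1, -r1, -r0, ?_⟩)
      (mem_sp3.mpr ⟨0, 0, 1, 0, ?_⟩)
    · simp; ring
    · simp; ring
    · simp

lemma sp3_type3 (f1 f2 f3 : MvPolynomial (Fin 3) K) (c1 c2 c : K) :
    sp3 (f1 + C c1 * f3) (f2 + C c2 * f3) (f3 + C c) = sp3 f1 f2 f3 := by
  apply le_antisymm
  · refine sp3_le (mem_sp3.mpr ⟨1, 0, c1, 0, ?_⟩) (mem_sp3.mpr ⟨0, 1, c2, 0, ?_⟩)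
      (mem_sp3.mpr ⟨0, 0, 1, c, ?_⟩)
    · simp
    · simp
    · simp
  · refine sp3_le (mem_sp3.mpr ⟨1, 0, -c1, c1 * c, ?_⟩) (mem_sp3.mpr ⟨0, 1, -c2, c2 * c, ?_⟩)
      (mem_sp3.mpr ⟨0, 0, 1, -c, ?_⟩)
    · simp; ring
    · simp; ring
    · simp

/-- a degenerate `P` has degree at least `[f,g] - dg g` (if this is positive) -/
lemma su_weak (F : Facts K w) (S : SuAll K w) (f g : MvPolynomial (Fin 3) K)
    (P : MvPolynomial (Fin 2) K) (hb : 0 < br w f g) (hpos : 0 ≤ br w f g - dg w g)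
    (hdeg : dg w (ev P f g) < vdg (dg w f) (dg w g) P) :
    br w f g - dg w g ≤ dg w (ev P f g) := by
  obtain ⟨p, q, m, γ, D⟩ := S.su f g P hb hdeg
  obtain ⟨i, j, -, hlow⟩ := S.low f g P p q m γ D
  have hγ := D.hγ
  have hm1 : (1 : ℝ) ≤ m := by exact_mod_cast D.hm
  have hp1 : (1 : ℝ) ≤ p := by exact_mod_cast D.hp
  have hq1 : (1 : ℝ) ≤ q := by exact_mod_cast D.hq
  have hij : 0 ≤ ((i : ℝ) * p + j * q) * γ := by positivity
  have hT : br w f g - dg w g ≤ ((p : ℝ) * q - p - q) * γ + br w f g := by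
    rw [D.dg']
    have : 0 ≤ (p : ℝ) * (q - 1) * γ := by
      have : (0 : ℝ) ≤ q - 1 := by linarith
      positivity
    nlinarith
  have hT0 : 0 ≤ ((p : ℝ) * q - p - q) * γ + br w f g := le_trans hpos hT
  have hT1 := mul_le_mul_of_nonneg_right hm1 hT0
  linarith

theorem knb [CharZero K] (F : Facts K w) (S : SuAll K w) (hN : NbStatement K w)
    (hK : KFactStatement K w) : KnbStatement K w := by
  intro f1 f2 f3 a P γ hk hr V' hadj
  have kf := hK f1 f2 f3 a P γ hk
  have hγ := hk.hγ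
  set ε := br w (f1 + C a * f3 ^ 2) f2 with hε
  have hg := kf.good
  have hfr := hg.fr
  have εpos := kf.εpos
  have b1 := kf.b1
  have b2 := kf.b2
  have b3 := kf.b3
  have d1 := kf.d1
  have d1' := kf.d1'
  have d2 := hk.h2
  have d3 := hk.h3
  have d3' : γ + ε ≤ dg w f3 := hk.h4
  have h5 : dg w (f3 + ev P (f1 + C a * f3 ^ 2) f2) < γ + ε := hk.h5
  have hV : Red w (sp3 f1 f2 f3) := Red.k f1 f2 f3 a P γ hk hr
  rcases hN f1 f2 f3 V' hg hadj with h | ⟨Q, rfl, hQ⟩ | ⟨c, Q, rfl, hQ⟩ | ⟨c1, c2, Q, rfl, hQ⟩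
  · exact h hV
  · -- type 1
    have hle : dg w (ev Q f2 f3) ≤ 3 * γ := by
      have h : ev Q f2 f3 = (f1 + ev Q f2 f3) - f1 := by ring
      rw [h]
      exact le_trans (F.d.sub_le _ _) (max_le (hQ.trans d1') d1')
    have hnd : vdg (dg w f2) (dg w f3) Q ≤ dg w (ev Q f2 f3) := by
      by_contra hcon
      push Not at hcon
      obtain ⟨p, q, m, γ', D⟩ := S.su f2 f3 Q (by rw [b1]; linarith) hcon
      obtain ⟨i, j, -, hlow⟩ := S.low f2 f3 Q p q m γ' D
      have hγ' := D.hγ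
      have e2 := D.df
      have e3 := D.dg'
      have hpq : q < p := by
        have h : (q : ℝ) * γ' < p * γ' := by rw [← e2, ← e3]; exact hg.d23
        exact_mod_cast lt_of_mul_lt_mul_right h hγ'.le
      have hq2 : 2 ≤ q := by
        by_contra hq
        have hq1 : q = 1 := by have := D.hq; omega
        subst hq1
        have h2p : (2 : ℝ) ≤ p := by exact_mod_cast hpq
        have h3 := mul_le_mul_of_nonneg_right h2p hγ'.le
        push_cast at e3
        linarith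
      have hm1 : (1 : ℝ) ≤ m := by exact_mod_cast D.hm
      have hpR : (q : ℝ) + 1 ≤ p := by exact_mod_cast hpq
      have hqR : (2 : ℝ) ≤ q := by exact_mod_cast hq2
      have hij : 0 ≤ ((i : ℝ) * p + j * q) * γ' := by positivity
      have h0 : 0 ≤ ((p : ℝ) * q - p - q) * γ' := by
        have : 0 ≤ ((p : ℝ) * q - p - q) := by nlinarith
        positivity
      have h1 : 0 ≤ ((p : ℝ) * q - p - q) * γ' + br w f2 f3 := by rw [b1]; linarith
      have h2 := mul_le_mul_of_nonneg_right hm1 h1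
      rw [b1] at h2 hlow
      linarith
    have hmon : ∀ m ∈ Q.support, (m 0 = 0 ∧ m 1 ≤ 2) ∨ (m 0 = 1 ∧ m 1 = 0) := by
      intro m hm
      have h1 := F.p.ge (dg w f2) (dg w f3) Q m hm
      rw [d2] at h1 hnd
      have h2 : (m 0 : ℝ) * (2 * γ) + m 1 * dg w f3 ≤ 3 * γ := by linarith
      have hm0 : (0 : ℝ) ≤ m 0 := by positivity
      have hm1 : (0 : ℝ) ≤ m 1 := by positivity
      have h3 : (m 1 : ℝ) * γ ≤ m 1 * dg w f3 := by
        apply mul_le_mul_of_nonneg_left _ hm1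
        linarith
      have h4 : ((2 * m 0 + m 1 : ℕ) : ℝ) * γ ≤ (3 : ℕ) * γ := by
        push_cast
        linarith
      have h5 : 2 * m 0 + m 1 ≤ 3 := by exact_mod_cast le_of_mul_le_mul_right h4 hγ
      have h6 : ¬ (m 0 = 1 ∧ m 1 = 1) := by
        rintro ⟨h7, h8⟩
        rw [h7, h8] at h2
        push_cast at h2
        linarith
      have h7 : ¬ (m 0 = 0 ∧ m 1 = 3) := by
        rintro ⟨h7, h8⟩
        rw [h7, h8] at h2
        push_cast at h2
        linarith
      omega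
    obtain ⟨c0, c1, c2, c3, hc⟩ := F.p.quad Q hmon
    have hV' : sp3 (f1 + ev Q f2 f3) f2 f3 = sp3 (f1 + C c3 * f3 ^ 2) f2 f3 := by
      rw [hc]
      have h := sp3_add1 (f1 + C c3 * f3 ^ 2) f2 f3 c1 c2 c0
      rw [← h]
      congr 1
      ring
    rw [hV']
    by_cases h0 : c3 = 0
    · subst h0
      simpa using hV
    by_cases h1 : c3 = a
    · subst h1
      exact Red.e3 _ f2 f3 P kf.good' (by linarith) hr
    have hsum : f1 + C c3 * f3 ^ 2 + C (a - c3) * f3 ^ 2 = f1 + C a * f3 ^ 2 := by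
      rw [map_sub]; ring
    refine Red.k (f1 + C c3 * f3 ^ 2) f2 f3 (a - c3) P γ
      ⟨elem_sq hfr c3, sub_ne_zero.mpr (Ne.symm h1), hγ, ?_, d2, d3, ?_, ?_⟩ ?_
    · rw [hsum]; exact hk.h1
    · rw [hsum]; exact hk.h4
    · rw [hsum]; exact hk.h5
    · rw [hsum]; exact hr
  · -- type 2
    have hC : dg w (C c * f2) < dg w f1 := lt_of_le_of_lt (F.d.Cmul_le c f2) hg.d12
    have hd1 : dg w (f1 + C c * f2) = dg w f1 := F.d.add_left _ _ hC
    have hbr : br w (f1 + C c * f2) f3 = 4 * γ + ε := by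
      have h1 : cr (D (f1 + C c * f2)) (D f3) =
          cr (D f1) (D f3) + (C c : MvPolynomial (Fin 3) K) • cr (D f2) (D f3) := by
        rw [D_add, D_Cmul, cr_add_left, cr_smul_left]
      have h2 : dv w ((C c : MvPolynomial (Fin 3) K) • cr (D f2) (D f3)) <
          dv w (cr (D f1) (D f3)) := by
        refine lt_of_le_of_lt (F.v.smul_le _ _) ?_
        rw [F.d.const]
        have e1 : dv w (cr (D f2) (D f3)) = 3 * γ + ε := b1
        have e2 : dv w (cr (D f1) (D f3)) = 4 * γ + ε := b2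
        rw [e1, e2]; linarith
      have h3 : br w (f1 + C c * f2) f3 = dv w (cr (D f1) (D f3)) := by
        unfold br
        rw [h1, F.v.add_left _ _ h2]
      rw [h3]; exact b2
    have hle : dg w (ev Q (f1 + C c * f2) f3) ≤ 2 * γ := by
      have h : ev Q (f1 + C c * f2) f3 = (f2 + ev Q (f1 + C c * f2) f3) - f2 := by ring
      rw [h]
      refine le_trans (F.d.sub_le _ _) (max_le (hQ.trans d2.le) d2.le)
    have hnd : vdg (dg w (f1 + C c * f2)) (dg w f3) Q ≤ dg w (ev Q (f1 + C c * f2) f3) := by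
      by_contra hcon
      push Not at hcon
      have := su_weak F S _ _ Q (by rw [hbr]; linarith) (by rw [hbr]; linarith) hcon
      rw [hbr] at this
      linarith
    have hmon : ∀ m ∈ Q.support, m 0 = 0 := by
      intro m hm
      have h1 := F.p.ge (dg w (f1 + C c * f2)) (dg w f3) Q m hm
      rw [hd1] at h1 hnd
      by_contra hne
      have h2 : (1 : ℝ) ≤ m 0 := by exact_mod_cast Nat.one_le_iff_ne_zero.mpr hne
      have h3 : 0 ≤ (m 1 : ℝ) * dg w f3 := mul_nonneg (by positivity) (by linarith)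
      have h4 := mul_le_mul_of_nonneg_right h2 (by linarith : (0 : ℝ) ≤ dg w f1)
      linarith
    obtain ⟨R, hR⟩ := F.p.uni1 Q hmon
    rw [hR] at hle
    rw [hR]
    have hdR : R.natDegree ≤ 1 := by
      by_cases h0 : R = 0
      · rw [h0]; simp
      · rw [F.p.auni f3 R h0] at hle
        by_contra h2
        have h3 : (2 : ℝ) ≤ R.natDegree := by exact_mod_cast (by omega : 2 ≤ R.natDegree)
        have h4 := mul_le_mul_of_nonneg_right h3 (by linarith : (0 : ℝ) ≤ dg w f3)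
        linarith
    obtain ⟨r1, r0, hR1⟩ := Polynomial.exists_eq_X_add_C_of_natDegree_le_one hdR
    have hev : Polynomial.aeval f3 R = C r1 * f3 + C r0 := by
      rw [hR1]
      simp [MvPolynomial.algebraMap_eq]
    rw [hev, sp3_type2]
    exact hV
  · -- type 3
    have hC1 : dg w (C c1 * f3) < dg w f1 :=
      lt_of_le_of_lt (F.d.Cmul_le c1 f3) (hg.d23.trans hg.d12)
    have hC2 : dg w (C c2 * f3) < dg w f2 := lt_of_le_of_lt (F.d.Cmul_le c2 f3) hg.d23
    have hd1 : dg w (f1 + C c1 * f3) = dg w f1 := F.d.add_left _ _ hC1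
    have hd2 : dg w (f2 + C c2 * f3) = dg w f2 := F.d.add_left _ _ hC2
    have hbr : br w (f1 + C c1 * f3) (f2 + C c2 * f3) = dg w f3 + 3 * γ + ε := by
      have h1 : cr (D (f1 + C c1 * f3)) (D (f2 + C c2 * f3)) =
          cr (D f1) (D f2) + ((C c2 : MvPolynomial (Fin 3) K) • cr (D f1) (D f3) +
            (C c1 : MvPolynomial (Fin 3) K) • cr (D f3) (D f2)) := by
        rw [D_add, D_Cmul, D_add, D_Cmul, cr_add_left, cr_add_right, cr_add_right, cr_smul_left,
          cr_smul_left, cr_smul_right, cr_smul_right, cr_self, smul_zero, smul_zero]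
        abel
      have e3 : dv w (cr (D f1) (D f2)) = dg w f3 + 3 * γ + ε := b3
      have e2 : dv w (cr (D f1) (D f3)) = 4 * γ + ε := b2
      have e1 : dv w (cr (D f3) (D f2)) = 3 * γ + ε := by
        have h := F.b.comm f3 f2
        rw [b1] at h
        exact h
      have h2 : dv w ((C c2 : MvPolynomial (Fin 3) K) • cr (D f1) (D f3) +
            (C c1 : MvPolynomial (Fin 3) K) • cr (D f3) (D f2)) < dv w (cr (D f1) (D f2)) := by
        refine lt_of_le_of_lt (F.v.add_le _ _) (max_lt ?_ ?_)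
        · refine lt_of_le_of_lt (F.v.smul_le _ _) ?_
          rw [F.d.const, e2, e3]; linarith
        · refine lt_of_le_of_lt (F.v.smul_le _ _) ?_
          rw [F.d.const, e1, e3]; linarith
      unfold br
      rw [h1, F.v.add_left _ _ h2, e3]
    have hle : dg w (ev Q (f1 + C c1 * f3) (f2 + C c2 * f3)) ≤ dg w f3 := by
      have h : ev Q (f1 + C c1 * f3) (f2 + C c2 * f3) =
        (f3 + ev Q (f1 + C c1 * f3) (f2 + C c2 * f3)) - f3 := by ring
      rw [h]
      exact le_trans (F.d.sub_le _ _) (max_le hQ le_rfl)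
    by_cases hcst : ∃ c : K, Q = C c
    · obtain ⟨c, rfl⟩ := hcst
      rw [ev_C, sp3_type3]
      exact hV
    · exfalso
      have hv := vdg_ge_min F (a := dg w (f1 + C c1 * f3)) (b := dg w (f2 + C c2 * f3))
        (by rw [hd2, d2]; linarith) (by rw [hd1, hd2]; exact hg.d12.le) Q hcst
      have hcon : dg w (ev Q (f1 + C c1 * f3) (f2 + C c2 * f3)) <
          vdg (dg w (f1 + C c1 * f3)) (dg w (f2 + C c2 * f3)) Q := by
        refine lt_of_le_of_lt hle (lt_of_lt_of_le ?_ hv)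
        rw [hd2]; exact hg.d23
      have := su_weak F S _ _ Q (by rw [hbr]; linarith) (by rw [hbr, hd2]; linarith) hcon
      rw [hbr, hd2] at this
      linarith

end

end Pool.Agent.Lib.MP_e1f7e2_al.SU.H36
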