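import Pool.Agent.Lib.MP_e1f7e2_al.SU.Iface

set_option autoImplicit false

/-!
Project SU3 (MP_e1f7e2_al), module P23.
-/

open MvPolynomial

namespace Pool.Agent.Lib.MP_e1f7e2_al.SU.H36

section

variable {K : Type*} [Field K] {w : Fin 3 → ℝ}

/-- a strict type 1 move from a resonance `dg f1 = n dg f2` -/
lemma res0 (F : Facts K w) (f1 f2 f3 : MvPolynomial (Fin 3) K) (n : ℕ) (h1 : 0 < dg w f1)
    (h : dg w f1 = n * dg w f2) :
    ∃ Q : MvPolynomial (Fin 2) K, dg w (f1 + ev Q f2 f3) < dg w f1 := by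
  obtain ⟨c, -, hc⟩ := F.d.lead f1 (f2 ^ n) h1 (by rw [F.d.pow, h])
  refine ⟨- (C c * X 0 ^ n), ?_⟩
  rw [ev_neg, ev_mul, ev_pow, ev_C, ev_X0, ← sub_eq_add_neg]
  exact hc

/-- a strict type 1 move from a resonance `dg f1 = n dg f3` -/
lemma res1 (F : Facts K w) (f1 f2 f3 : MvPolynomial (Fin 3) K) (n : ℕ) (h1 : 0 < dg w f1)
    (h : dg w f1 = n * dg w f3) :
    ∃ Q : MvPolynomial (Fin 2) K, dg w (f1 + ev Q f2 f3) < dg w f1 := by
  obtain ⟨c, -, hc⟩ := F.d.lead f1 (f3 ^ n) h1 (by rw [F.d.pow, h])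
  refine ⟨- (C c * X 1 ^ n), ?_⟩
  rw [ev_neg, ev_mul, ev_pow, ev_C, ev_X1, ← sub_eq_add_neg]
  exact hc

theorem p23 (F : Facts K w) (hT : T3Statement K w) (hD : D23Statement K w)
    (h21 : P21Statement K w) (h13 : P13Statement K w) : P23Statement K w := by
  intro f1 f2 f3 P P' hg ih hP hr hP'
  have p1 : 0 < dg w f1 := F.b.dpos _ _ _ hg.fr
  -- a strict type 1 move suffices
  have key : (∃ Q : MvPolynomial (Fin 2) K, dg w (f1 + ev Q f2 f3) < dg w f1) →
      Red w (sp3 f1 f2 (f3 + ev P' f1 f2)) := by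
    rintro ⟨Q, hQ⟩
    exact h13 f1 f2 f3 Q P' hg ih hQ (h21 f1 f2 f3 P Q hg ih hP hr hQ.le) hP'
  rcases hT f1 f2 f3 P' hg hP' with ⟨c, rfl⟩ | ⟨n, -, hn⟩ | ⟨γ, T⟩
  · have h1 : sp3 f1 f2 (f3 + ev (C c) f1 f2) = sp3 f1 f2 f3 := by
      rw [ev_C, sp3_rot' f1 f2, sp3_rot' f1 f2 f3]
      have := sp3_add1 f3 f1 f2 (0 : K) 0 c
      simpa using this
    rw [h1]
    exact Red.e2 f1 f2 f3 P hg hP hr
  · exact key (res0 F f1 f2 f3 n p1 hn)
  · have hγ := T.hγ
    have b3 : 0 < br w f1 f2 := F.b.bpos _ _ _ hg.fr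
    have e1 := T.d1
    have e2 := T.d2
    have lo := T.lo
    have hi := T.hi
    have h23 := hg.d23
    have h2 : dg w (ev P f1 f3) = 2 * γ := by
      have h : ev P f1 f3 = (f2 + ev P f1 f3) - f2 := by ring
      rw [h, F.d.sub_right _ _ hP, e2]
    have hdeg : dg w (ev P f1 f3) < vdg (dg w f1) (dg w f3) P := by
      refine lt_of_le_of_ne (F.p.ev_le f1 f3 P) ?_
      intro heq
      have hne : P ≠ 0 := by
        rintro rfl
        rw [ev_zero, F.d.zero] at h2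
        linarith
      obtain ⟨m, -, hm⟩ := F.p.att (dg w f1) (dg w f3) P hne
      rw [← heq, h2, e1] at hm
      have hm1 : (0 : ℝ) ≤ m 1 := by positivity
      rcases Nat.eq_zero_or_pos (m 0) with h0 | h0
      · rw [h0] at hm
        rcases Nat.lt_or_ge (m 1) 2 with h3 | h3
        · have h4 : (m 1 : ℝ) ≤ 1 := by exact_mod_cast Nat.lt_succ_iff.mp h3
          push_cast at hm
          nlinarith
        · have h4 : (2 : ℝ) ≤ m 1 := by exact_mod_cast h3
          push_cast at hm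
          nlinarith
      · have h4 : (1 : ℝ) ≤ m 0 := by exact_mod_cast h0
        have h5 : 0 ≤ (m 1 : ℝ) * dg w f3 := mul_nonneg hm1 (by linarith)
        nlinarith
    have h3 := hD f1 f2 f3 P γ hg.fr hγ e1 e2 (by linarith) (by linarith) (by linarith) hdeg h2.le
    refine key (res1 F f1 f2 f3 2 p1 ?_)
    rw [e1]; push_cast; linarith

end

end Pool.Agent.Lib.MP_e1f7e2_al.SU.H36
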