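import Pool.Agent.Lib.MP_e1f7e2_al.SU.Iface

set_option autoImplicit false

/-!
Project SU3 (MP_e1f7e2_al), module SQ: the square lemma.
-/

open MvPolynomial

namespace Pool.Agent.Lib.MP_e1f7e2_al.SU.H36

section

variable {K : Type*} [Field K] {w : Fin 3 → ℝ}

/-- replacing `f` by `f - R(l)` inside `Q(l,f)` -/
lemma ev_shift (Q : MvPolynomial (Fin 2) K) (R : Polynomial K) (l f : MvPolynomial (Fin 3) K) :
    ev (aeval ![X 0, X 1 - Polynomial.aeval (X 0 : MvPolynomial (Fin 2) K) R] Q) l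
      (f + Polynomial.aeval l R) = ev Q l f := by
  rw [← ev_comp, ev_X0, ev_sub, ev_X1, ev_uni0]
  congr 1
  ring

/-- the common corner of the square -/
lemma corner (l h f : MvPolynomial (Fin 3) K) (Q : MvPolynomial (Fin 2) K) (R : Polynomial K) :
    (∃ P : MvPolynomial (Fin 2) K, f + Polynomial.aeval l R = f + ev P l (h + ev Q l f)) ∧
    (∃ P : MvPolynomial (Fin 2) K, f = f + Polynomial.aeval l R + ev P l (h + ev Q l f)) ∧
    (∃ P : MvPolynomial (Fin 2) K, h = h + ev Q l f + ev P l (f + Polynomial.aeval l R)) ∧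
    (∃ P : MvPolynomial (Fin 2) K, h + ev Q l f = h + ev P l (f + Polynomial.aeval l R)) := by
  refine ⟨⟨Polynomial.aeval (X 0 : MvPolynomial (Fin 2) K) R, by rw [ev_uni0]⟩,
    ⟨- Polynomial.aeval (X 0 : MvPolynomial (Fin 2) K) R, by rw [ev_neg, ev_uni0]; ring⟩,
    ⟨- aeval ![X 0, X 1 - Polynomial.aeval (X 0 : MvPolynomial (Fin 2) K) R] Q, ?_⟩,
    ⟨aeval ![X 0, X 1 - Polynomial.aeval (X 0 : MvPolynomial (Fin 2) K) R] Q, ?_⟩⟩
  · rw [ev_neg, ev_shift]; ring
  · rw [ev_shift]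

theorem sqi : SqiStatement K w := by
  intro l h f Q R hfr ih hQ hR hr
  obtain ⟨⟨P1, h1⟩, -, ⟨P3, h3⟩, -⟩ := corner l h f Q R
  -- x = ⟨l, h + Q, f⟩, z = ⟨l, h + Q, f + R⟩
  have frx : Fr l (h + ev Q l f) f := hfr.elem2 Q
  have hz : Red w (sp3 l (h + ev Q l f) (f + Polynomial.aeval l R)) := by
    rw [h1]
    exact ih.go3 frx (by linarith) hr P1
  have frz : Fr l (h + ev Q l f) (f + Polynomial.aeval l R) := by
    rw [h1]; exact frx.elem3 P1
  have hy := ih.go2 frz (by linarith) hz P3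
  rw [← h3] at hy
  exact hy

theorem sqii : SqiiStatement K w := by
  intro l h f Q R hfr ih hQ hR hr
  obtain ⟨-, ⟨P2, h2⟩, -, ⟨P4, h4⟩⟩ := corner l h f Q R
  have fry : Fr l h (f + Polynomial.aeval l R) := by
    have := hfr.elem3 (Polynomial.aeval (X 0 : MvPolynomial (Fin 2) K) R)
    rwa [ev_uni0] at this
  have hz : Red w (sp3 l (h + ev Q l f) (f + Polynomial.aeval l R)) := by
    rw [h4]
    exact ih.go2 fry (by linarith) hr P4
  have frz : Fr l (h + ev Q l f) (f + Polynomial.aeval l R) := by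
    rw [h4]; exact fry.elem2 P4
  have hx := ih.go3 frz (by linarith) hz P2
  rw [← h2] at hx
  exact hx

end

end Pool.Agent.Lib.MP_e1f7e2_al.SU.H36
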