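import Pool.Agent.Lib.MP_e1f7e2_al.SU.Iface

set_option autoImplicit false

/-!
Project SU3 (MP_e1f7e2_al), module T3: type 3 moves that do not increase the degree.
-/

open MvPolynomial

namespace Pool.Agent.Lib.MP_e1f7e2_al.SU.H36

section

variable {K : Type*} [Field K] {w : Fin 3 → ℝ}

lemma pd10 (P : MvPolynomial (Fin 2) K) : pd 1 0 P = pderiv 0 P := rfl

lemma pd01 (P : MvPolynomial (Fin 2) K) : pd 0 1 P = pderiv 1 P := rfl

lemma pd00 (P : MvPolynomial (Fin 2) K) : pd 0 0 P = P := rfl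

/-- a nonconstant polynomial has virtual degree at least the smaller degree -/
lemma vdg_ge_min (F : Facts K w) {a b : ℝ} (hb : 0 < b) (hab : b ≤ a)
    (P : MvPolynomial (Fin 2) K) (hc : ¬ ∃ c : K, P = C c) : b ≤ vdg a b P := by
  have h1 : ¬ ∀ m ∈ P.support, m = 0 := fun h => hc (F.p.cst P h)
  push Not at h1
  obtain ⟨m, hm, hm0⟩ := h1
  refine le_trans ?_ (F.p.ge a b P m hm)
  have h2 : m 0 ≠ 0 ∨ m 1 ≠ 0 := by
    by_contra h3
    push Not at h3
    apply hm0
    ext i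
    fin_cases i
    · simpa using h3.1
    · simpa using h3.2
  have h0 : (0 : ℝ) ≤ m 0 := by positivity
  have h1' : (0 : ℝ) ≤ m 1 := by positivity
  rcases h2 with h2 | h2
  · have h3 : (1 : ℝ) ≤ m 0 := by exact_mod_cast Nat.one_le_iff_ne_zero.mpr h2
    nlinarith
  · have h3 : (1 : ℝ) ≤ m 1 := by exact_mod_cast Nat.one_le_iff_ne_zero.mpr h2
    nlinarith

/-- arithmetic of `p (q-1) < 2 q` -/
lemma arith32 {p q : ℕ} (hq : 2 ≤ q) (hpq : q < p) (h : p * q < p + 2 * q) : p = 3 ∧ q = 2 := by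
  have h1 : q < 3 := by
    by_contra h2
    have h2 : 3 ≤ q := by omega
    obtain ⟨r, rfl⟩ := Nat.exists_eq_add_of_le h2
    obtain ⟨t, rfl⟩ := Nat.exists_eq_add_of_lt hpq
    nlinarith
  have h3 : q = 2 := by omega
  subst h3
  constructor
  · omega
  · rfl

/-- (T3) together with the value of the virtual degree -/
theorem t3_core (F : Facts K w) (S : SuAll K w) (f1 f2 f3 : MvPolynomial (Fin 3) K)
    (P : MvPolynomial (Fin 2) K) (hg : Good w f1 f2 f3)
    (hP : dg w (f3 + ev P f1 f2) ≤ dg w f3) :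
    (∃ c : K, P = C c) ∨ (∃ n : ℕ, 2 ≤ n ∧ dg w f1 = n * dg w f2) ∨
    (∃ γ : ℝ, T3D w f1 f2 f3 P γ ∧ vdg (dg w f1) (dg w f2) P = 6 * γ) := by
  by_cases hc : ∃ c : K, P = C c
  · exact Or.inl hc
  refine Or.inr ?_
  have hfr := hg.fr
  have p1 : 0 < dg w f1 := F.b.dpos _ _ _ hfr
  have p2 : 0 < dg w f2 := F.b.dpos _ _ _ hfr.swap12
  have p3 : 0 < dg w f3 := F.b.dpos _ _ _ hfr.swap13
  have hb3 : 0 < br w f1 f2 := F.b.bpos _ _ _ hfr
  have hb1 : 0 < br w f2 f3 := F.b.bpos _ _ _ hfr.rot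
  have hb2 : 0 < br w f1 f3 := F.b.bpos _ _ _ hfr.swap23
  have h12 := hg.d12
  have h23 := hg.d23
  have hPle : dg w (ev P f1 f2) ≤ dg w f3 := by
    have h : ev P f1 f2 = (f3 + ev P f1 f2) - f3 := by ring
    rw [h]
    exact le_trans (F.d.sub_le _ _) (max_le hP le_rfl)
  have hv := vdg_ge_min F p2 h12.le P hc
  have hdeg : dg w (ev P f1 f2) < vdg (dg w f1) (dg w f2) P := by linarith
  obtain ⟨p, q, m, γ, D⟩ := S.su f1 f2 P hb3 hdeg
  have hγ := D.hγ
  obtain ⟨i, j, hv1, hlow⟩ := S.low f1 f2 P p q m γ D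
  have hpq : q < p := by
    have h : (q : ℝ) * γ < p * γ := by rw [← D.df, ← D.dg']; exact h12
    exact_mod_cast lt_of_mul_lt_mul_right h hγ.le
  rcases Nat.lt_or_ge q 2 with hq | hq
  · have hq1 : q = 1 := by have := D.hq; omega
    subst hq1
    left
    refine ⟨p, by omega, ?_⟩
    rw [D.df, D.dg']
    simp
  right
  have hm1 : (1 : ℝ) ≤ m := by exact_mod_cast D.hm
  have hpR : (q : ℝ) + 1 ≤ p := by exact_mod_cast hpq
  have hqR : (2 : ℝ) ≤ q := by exact_mod_cast hq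
  have hi : (0 : ℝ) ≤ i := by positivity
  have hj : (0 : ℝ) ≤ j := by positivity
  have hT : 0 < ((p : ℝ) * q - p - q) * γ + br w f1 f2 := by
    have : 0 ≤ ((p : ℝ) * q - p - q) := by nlinarith
    positivity
  have hij : 0 ≤ ((i : ℝ) * p + j * q) * γ := by positivity
  have hk1 : ((p : ℝ) * q - p - q) * γ + br w f1 f2 ≤ m * (((p : ℝ) * q - p - q) * γ + br w f1 f2) := by
    nlinarith
  have hk2 : ((p : ℝ) * q - p - q) * γ < q * γ := by
    have h1 := D.dg'
    linarith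
  have hk3 : (p : ℝ) * q - p - q < q := lt_of_mul_lt_mul_right hk2 hγ.le
  have hk4 : p * q < p + 2 * q := by
    have : (p : ℝ) * q < p + 2 * q := by linarith
    exact_mod_cast this
  obtain ⟨hp3, hq2⟩ := arith32 hq hpq hk4
  subst hp3
  subst hq2
  have e1 := D.df
  have e2 := D.dg'
  push_cast at e1 e2 hlow hv1
  have hm : m = 1 := by
    by_contra hne
    have h2 : 2 ≤ m := by have := D.hm; omega
    have h3 : (2 : ℝ) ≤ m := by exact_mod_cast h2
    have h4 : 0 ≤ ((i : ℝ) * 3 + j * 2) * γ := by positivity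
    have h5 : (0 : ℝ) ≤ (3 * 2 - 3 - 2) * γ + br w f1 f2 := by
      have : (0 : ℝ) ≤ (3 * 2 - 3 - 2) * γ := by linarith
      linarith
    have h6 := mul_le_mul_of_nonneg_right h3 h5
    linarith
  subst hm
  push_cast at hlow hv1
  have hi0 : i = 0 := by
    by_contra hne
    have h3 : (1 : ℝ) ≤ i := by exact_mod_cast Nat.one_le_iff_ne_zero.mpr hne
    have h4 := mul_le_mul_of_nonneg_right h3 hγ.le
    have h5 : 0 ≤ (j : ℝ) * γ := by positivity
    linarith
  have hj0 : j = 0 := by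
    by_contra hne
    have h3 : (1 : ℝ) ≤ j := by exact_mod_cast Nat.one_le_iff_ne_zero.mpr hne
    have h4 := mul_le_mul_of_nonneg_right h3 hγ.le
    have h5 : 0 ≤ (i : ℝ) * γ := by positivity
    linarith
  subst hi0
  subst hj0
  push_cast at hlow hv1
  have hvd : vdg (dg w f1) (dg w f2) P = 6 * γ := by rw [hv1]; ring
  have htop0 := D.top 1 0 rfl
  have htop1 := D.top 0 1 rfl
  rw [pd10] at htop0
  rw [pd01] at htop1
  have hne0 := D.ne 1 0 le_rfl
  rw [pd10] at hne0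
  push_cast at htop0 htop1
  have hpx : dg w (ev (pderiv 0 P) f1 f2) = 3 * γ := by rw [htop0, hvd]; ring
  have hpy : dg w (ev (pderiv 1 P) f1 f2) = 4 * γ := by rw [htop1, hvd]; ring
  have ht2 := F.b.t2' f1 f2 f3 P hfr hne0
  have hlo : γ + br w f1 f2 ≤ dg w (ev P f1 f2) := by
    have h0 : (1 : ℝ) * ((3 * 2 - 3 - 2) * γ + br w f1 f2) + (0 * 3 + 0 * 2) * γ
      = γ + br w f1 f2 := by ring
    linarith
  refine ⟨γ, ⟨hγ, e1, e2, hlo, hPle, hpx, hpy, ?_, ?_⟩, hvd⟩
  · rw [hpx] at ht2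
    exact ht2
  · have hs := F.b.sgpos
    have hb1' : γ < br w f2 f3 := by
      rw [hpx] at ht2
      linarith
    have t1 := F.b.two f1 f2 f3 hfr
    have t2 := F.b.two f2 f1 f3 hfr.swap12
    have hcm := F.b.comm f2 f1
    rw [e1, e2] at t1
    rw [e1, e2, hcm] at t2
    have hb3' : br w f1 f2 ≤ dg w f3 - γ := by linarith
    have hd3 : dg w f3 < 2 * γ := by linarith
    have hge : γ + br w f2 f3 ≤ br w f1 f3 := by
      rcases t1 with t1 | t1
      · linarith
      · exfalso; linarith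
    have hle : br w f1 f3 ≤ γ + br w f2 f3 := by
      rcases t2 with t2 | t2
      · linarith
      · exfalso; linarith
    exact le_antisymm hle hge

theorem t3 [CharZero K] (_hw : Gen w) (F : Facts K w) (S : SuAll K w) : T3Statement K w := by
  intro f1 f2 f3 P hg hP
  rcases t3_core F S f1 f2 f3 P hg hP with h | h | ⟨γ, h, _⟩
  · exact Or.inl h
  · exact Or.inr (Or.inl h)
  · exact Or.inr (Or.inr ⟨γ, h⟩)

end

end Pool.Agent.Lib.MP_e1f7e2_al.SU.H36
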